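import Mathlib

/-!
# Squad EDX, row BAS (helper67): linear algebra
-/

set_option autoImplicit false

namespace Pool.Agent.EDX.H67

open Finset Module

theorem select {ι κ A : Type} [Fintype ι] [AddCommGroup A] [Module ℚ A]
    [FiniteDimensional ℚ A] (hι : Fintype.card ι = finrank ℚ A) (v : κ → A) {Iq In : Set κ}
    (hIq : Iq ⊆ In) (htop : Submodule.span ℚ (v '' In) = ⊤) :
    ∃ σ : ι → κ, Function.Injective σ ∧ (∀ x, σ x ∈ In) ∧
      LinearIndependent ℚ (fun x => v (σ x)) ∧
      ∀ S : Finset ι, (∀ x ∈ S, σ x ∉ Iq) →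
        S.card + finrank ℚ (Submodule.span ℚ (v '' Iq)) ≤ Fintype.card ι := by
  classical
  obtain ⟨b₀, hb₀I, -, hb₀s, hb₀⟩ := exists_linearIndepOn_extension (K := ℚ) (v := v)
    (s := ∅) (t := Iq) (linearIndepOn_empty ℚ v) (Set.empty_subset _)
  obtain ⟨b, hbI, hbb, hbs, hb⟩ := exists_linearIndepOn_extension (K := ℚ) (v := v)
    (s := b₀) (t := In) hb₀ (hb₀I.trans hIq)
  have hspan : Submodule.span ℚ (v '' b) = ⊤ := by
    rw [eq_top_iff, ← htop, Submodule.span_le]
    exact hbs
  have hspan' : ⊤ ≤ Submodule.span ℚ (Set.range fun x : b => v x) := by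
    rw [← hspan, Set.image_eq_range]
  have hbl : LinearIndependent ℚ (fun x : b => v x) := hb
  have hb₀l : LinearIndependent ℚ (fun x : b₀ => v x) := hb₀
  obtain ⟨Bb, hBb⟩ : ∃ Bb : Module.Basis b ℚ A, ∀ x, Bb x = v x :=
    ⟨Module.Basis.mk hbl hspan', fun x => Module.Basis.mk_apply hbl hspan' x⟩
  haveI : Finite b := Module.Finite.finite_basis Bb
  haveI : Fintype b := Fintype.ofFinite b
  haveI : Finite b₀ := Finite.Set.subset b hbb
  haveI : Fintype b₀ := Fintype.ofFinite b₀
  have hcard : Fintype.card ι = Fintype.card b := by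
    rw [hι, finrank_eq_card_basis Bb]
  obtain ⟨e⟩ : Nonempty (ι ≃ b) := Fintype.card_eq.1 hcard
  refine ⟨fun x => (e x : κ), ?_, fun x => hbI (e x).2, ?_, ?_⟩
  · exact Subtype.val_injective.comp e.injective
  · exact hbl.comp e e.injective
  · intro S hS
    have h1 : finrank ℚ (Submodule.span ℚ (v '' Iq)) = Fintype.card b₀ := by
      have h2 : Submodule.span ℚ (v '' Iq) = Submodule.span ℚ (Set.range fun x : b₀ => v x) := by
        rw [← Set.image_eq_range]
        apply le_antisymm
        · rw [Submodule.span_le]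
          exact hb₀s
        · exact Submodule.span_mono (Set.image_mono hb₀I)
      rw [h2, finrank_span_eq_card hb₀l]
    rw [h1, hcard, ← Set.toFinset_card b₀, ← Set.toFinset_card b]
    have h3 : (S.image fun x => (e x : κ)).card = S.card :=
      Finset.card_image_of_injective _ (Subtype.val_injective.comp e.injective)
    rw [← h3, ← Finset.card_union_of_disjoint]
    · apply Finset.card_le_card
      intro x hx
      rw [Set.mem_toFinset]
      rcases Finset.mem_union.1 hx with h | h
      · obtain ⟨y, -, hy⟩ := Finset.mem_image.1 h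
        rw [← hy]
        exact (e y).2
      · exact hbb (Set.mem_toFinset.1 h)
    · rw [Finset.disjoint_left]
      intro x hx hx'
      obtain ⟨y, hyS, hy⟩ := Finset.mem_image.1 hx
      rw [Set.mem_toFinset, ← hy] at hx'
      exact hS y hyS (hb₀I hx')

theorem ann_dim {A : Type} [AddCommGroup A] [Module ℚ A] [FiniteDimensional ℚ A]
    (B : A →ₗ[ℚ] A →ₗ[ℚ] ℚ) (hB : ∀ P, (∀ v, B P v = 0) → P = 0) (R L : Submodule ℚ A)
    (h : ∀ P, (∀ v ∈ R, B P v = 0) → P ∈ L) :
    finrank ℚ A ≤ finrank ℚ R + finrank ℚ L := by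
  have hinj : Function.Injective B := by
    rw [injective_iff_map_eq_zero]
    intro P hP
    exact hB P fun v => by rw [hP, LinearMap.zero_apply]
  have hfr : finrank ℚ A = finrank ℚ (Module.Dual ℚ A) := Subspace.dual_finrank_eq.symm
  obtain ⟨e, he⟩ : ∃ e : A ≃ₗ[ℚ] Module.Dual ℚ A, ∀ P, e P = B P :=
    ⟨LinearMap.linearEquivOfInjective B hinj hfr, fun P => rfl⟩
  have h1 := Subspace.finrank_add_finrank_dualAnnihilator_eq R
  have h2 := LinearEquiv.finrank_map_eq e.symm (R.dualAnnihilator)
  have h3 : (R.dualAnnihilator).map (e.symm : Module.Dual ℚ A →ₗ[ℚ] A) ≤ L := by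
    rintro _ ⟨φ, hφ, rfl⟩
    apply h
    intro v hv
    have h4 : B (e.symm φ) = φ := by
      rw [← he, LinearEquiv.apply_symm_apply]
    show B (e.symm φ) v = 0
    rw [h4]
    exact (Submodule.mem_dualAnnihilator φ).1 hφ v hv
  have h5 := Submodule.finrank_mono h3
  omega

end Pool.Agent.EDX.H67
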