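import Pool.Agent.EDX.Stmts2
import Pool.Agent.Helper67_EDX.BASa
import Pool.Agent.Helper60_EDG.MOB
import Pool.Agent.Helper24_EDG.MOA

/-!
# Squad EDX, row BAS (helper67)
-/

set_option autoImplicit false

namespace Pool.Agent.EDX.H67

open Polynomial Finset Module Pool.Agent.EDG Pool.Agent.EDX

/-- congruence for remainders -/
theorem modBy_congr {R : Type} [CommRing R] {g a b : R[X]} (hg : g.Monic) (h : g ∣ a - b) :
    a %ₘ g = b %ₘ g := modByMonic_eq_of_dvd_sub hg h

theorem dvd_sub_mod {R : Type} [CommRing R] {g : R[X]} (hg : g.Monic) (a : R[X]) :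
    g ∣ a - a %ₘ g := by
  have h1 := modByMonic_add_div a g
  exact ⟨a /ₘ g, by linear_combination -h1⟩

/-- the polynomial of a vector of coefficients -/
theorem pol_of_coeff {n D : ℕ} (r : Fin n → ℤ[X]) (hr : ∀ i, (r i).natDegree < D) (i : Fin n) :
    pol (fun x : Fin n × Fin D => (((r x.1).coeff x.2 : ℤ) : ℚ)) i =
      (r i).map (Int.castRingHom ℚ) := by
  ext m
  by_cases hm : m < D
  · have h1 := pol_coeff (fun x : Fin n × Fin D => (((r x.1).coeff x.2 : ℤ) : ℚ)) i ⟨m, hm⟩
    rw [coeff_map]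
    exact h1
  · have h1 := pol_degree_lt (fun x : Fin n × Fin D => (((r x.1).coeff x.2 : ℤ) : ℚ)) i
    have h2 : (D : WithBot ℕ) ≤ (m : WithBot ℕ) := by exact_mod_cast not_lt.1 hm
    rw [coeff_eq_zero_of_degree_lt (h1.trans_le h2), coeff_map,
      coeff_eq_zero_of_natDegree_lt ((hr i).trans_le (not_lt.1 hm)), map_zero]

/-- the pairing -/
noncomputable def BB (n : ℕ) (g : ℤ[X]) :
    (Fin n × Fin g.natDegree → ℚ) →ₗ[ℚ] (Fin n × Fin g.natDegree → ℚ) →ₗ[ℚ] ℚ :=
  LinearMap.mk₂ ℚ (fun P v => ((∑ i : Fin n, pol v i * pol P i) %ₘ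
      g.map (Int.castRingHom ℚ)).coeff (g.natDegree - 1))
    (by
      intro P P' v
      rw [← coeff_add, ← add_modByMonic, ← sum_add_distrib]
      simp only [pol_add, mul_add])
    (by
      intro c P v
      rw [smul_eq_mul, ← coeff_C_mul, ← smul_eq_C_mul, ← smul_modByMonic, smul_sum]
      simp only [pol_smul, smul_eq_C_mul]
      congr 2
      exact sum_congr rfl fun i _ => by ring)
    (by
      intro P v v'
      rw [← coeff_add, ← add_modByMonic, ← sum_add_distrib]
      simp only [pol_add, add_mul])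
    (by
      intro c P v
      rw [smul_eq_mul, ← coeff_C_mul, ← smul_eq_C_mul, ← smul_modByMonic, smul_sum]
      simp only [pol_smul, smul_eq_C_mul]
      congr 2
      exact sum_congr rfl fun i _ => by ring)

theorem BB_apply (n : ℕ) (g : ℤ[X]) (P v : Fin n × Fin g.natDegree → ℚ) :
    BB n g P v = ((∑ i : Fin n, pol v i * pol P i) %ₘ
      g.map (Int.castRingHom ℚ)).coeff (g.natDegree - 1) := rfl

theorem pol_single {n D : ℕ} (i i' : Fin n) (j : Fin D) :
    pol (Pi.single (i, j) (1 : ℚ) : Fin n × Fin D → ℚ) i' = if i' = i then X ^ (j : ℕ) else 0 := by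
  unfold pol
  by_cases h : i' = i
  · rw [if_pos h, h, Finset.sum_eq_single j]
    · rw [Pi.single_eq_same, C_1, one_mul]
    · intro b _ hb
      rw [Pi.single_eq_of_ne (fun he => hb (Prod.ext_iff.1 he).2), C_0, zero_mul]
    · intro hj
      exact absurd (mem_univ j) hj
  · rw [if_neg h]
    apply Finset.sum_eq_zero
    intro b _
    rw [Pi.single_eq_of_ne (fun he => h (Prod.ext_iff.1 he).1), C_0, zero_mul]

theorem BB_nondeg (n : ℕ) (g : ℤ[X]) (hg : g.Monic) (hD : 0 < g.natDegree)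
    (P : Fin n × Fin g.natDegree → ℚ) (h : ∀ v, BB n g P v = 0) : P = 0 := by
  have hgQ : (g.map (Int.castRingHom ℚ)).Monic := hg.map _
  have hdeg : (g.map (Int.castRingHom ℚ)).degree = (g.natDegree : WithBot ℕ) := by
    rw [degree_eq_natDegree hgQ.ne_zero, hg.natDegree_map]
  have hp : ∀ i, pol P i = 0 := by
    intro i
    by_contra hne
    have h1 := pol_degree_lt P i
    have h2 : (pol P i).natDegree < g.natDegree := by
      rw [degree_eq_natDegree hne] at h1
      exact_mod_cast h1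
    have h3 := h (Pi.single (i, ⟨g.natDegree - 1 - (pol P i).natDegree, by omega⟩) 1)
    rw [BB_apply] at h3
    simp only [pol_single] at h3
    have h4 : ∑ i' : Fin n, (if i' = i then (X : ℚ[X]) ^ (g.natDegree - 1 - (pol P i).natDegree)
        else 0) * pol P i' = X ^ (g.natDegree - 1 - (pol P i).natDegree) * pol P i := by
      rw [Finset.sum_eq_single i]
      · rw [if_pos rfl]
      · intro b _ hb
        rw [if_neg hb, zero_mul]
      · intro hj
        exact absurd (mem_univ i) hj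
    rw [h4] at h3
    have h5 : (X ^ (g.natDegree - 1 - (pol P i).natDegree) * pol P i).degree <
        (g.map (Int.castRingHom ℚ)).degree := by
      rw [hdeg, degree_mul, degree_X_pow, degree_eq_natDegree hne]
      have h6 : g.natDegree - 1 - (pol P i).natDegree + (pol P i).natDegree < g.natDegree := by
        omega
      exact_mod_cast h6
    rw [(modByMonic_eq_self_iff hgQ).2 h5, coeff_X_pow_mul', if_pos (by omega)] at h3
    have h7 : g.natDegree - 1 - (g.natDegree - 1 - (pol P i).natDegree) = (pol P i).natDegree := by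
      omega
    rw [h7] at h3
    exact hne (leadingCoeff_eq_zero.1 h3)
  funext x
  have h8 := pol_coeff P x.1 x.2
  rw [hp x.1, coeff_zero] at h8
  exact h8.symm

/-- the vectors over `ℚ` -/
noncomputable def vQ (n : ℕ) (g : ℤ[X]) (p : ℕ × ℕ) : Fin n × Fin g.natDegree → ℚ :=
  fun x => ((vec n g p.1 p.2 x : ℤ) : ℚ)

theorem BB_vQ (n : ℕ) (g : ℤ[X]) (hg : g.Monic) (hD : 0 < g.natDegree)
    (P : Fin n × Fin g.natDegree → ℚ) (s e : ℕ) :
    BB n g P (vQ n g (s, e)) = (((2 * X) ^ s * NP ℚ n g P e) %ₘ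
      g.map (Int.castRingHom ℚ)).coeff (g.natDegree - 1) := by
  have hgQ : (g.map (Int.castRingHom ℚ)).Monic := hg.map _
  have hg1 : g ≠ 1 := by
    intro h1
    rw [h1, natDegree_one] at hD
    exact lt_irrefl _ hD
  rw [BB_apply]
  have h1 : ∀ i : Fin n, pol (vQ n g (s, e)) i =
      ((2 * X) ^ s * (ev (X : ℤ[X]) (Yp i) (h e)).map (Int.castRingHom ℚ)) %ₘ
        g.map (Int.castRingHom ℚ) := by
    intro i
    have h2 := pol_of_coeff (n := n) (D := g.natDegree)
      (fun i => ((2 * X) ^ s * ev (X : ℤ[X]) (Yp i) (h e)) %ₘ g)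
      (fun i => natDegree_modByMonic_lt _ hg hg1) i
    have h3 : (fun x : Fin n × Fin g.natDegree =>
        ((((((2 * X) ^ s * ev (X : ℤ[X]) (Yp x.1) (h e)) %ₘ g).coeff x.2 : ℤ)) : ℚ)) =
        vQ n g (s, e) := rfl
    rw [h3] at h2
    rw [h2, map_modByMonic _ hg, Polynomial.map_mul, Polynomial.map_pow, Polynomial.map_mul,
      map_X]
    congr 3
    rw [Polynomial.map_ofNat]
  simp only [h1]
  congr 1
  apply modBy_congr hgQ
  have h4 : (2 * X) ^ s * NP ℚ n g P e =
      (2 * X) ^ s * ((∑ i : Fin n, (ev (X : ℤ[X]) (Yp i) (h e)).map (Int.castRingHom ℚ) *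
        pol P i) %ₘ g.map (Int.castRingHom ℚ)) := rfl
  rw [h4]
  have h5 : ∑ i : Fin n, ((2 * X) ^ s * (ev (X : ℤ[X]) (Yp i) (h e)).map (Int.castRingHom ℚ)) %ₘ
        g.map (Int.castRingHom ℚ) * pol P i -
      (2 * X) ^ s * ((∑ i : Fin n, (ev (X : ℤ[X]) (Yp i) (h e)).map (Int.castRingHom ℚ) *
        pol P i) %ₘ g.map (Int.castRingHom ℚ)) =
      (2 * X) ^ s * ((∑ i : Fin n, (ev (X : ℤ[X]) (Yp i) (h e)).map (Int.castRingHom ℚ) *
        pol P i) - (∑ i : Fin n, (ev (X : ℤ[X]) (Yp i) (h e)).map (Int.castRingHom ℚ) *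
        pol P i) %ₘ g.map (Int.castRingHom ℚ)) -
      ∑ i : Fin n, (((2 * X) ^ s * (ev (X : ℤ[X]) (Yp i) (h e)).map (Int.castRingHom ℚ)) -
        ((2 * X) ^ s * (ev (X : ℤ[X]) (Yp i) (h e)).map (Int.castRingHom ℚ)) %ₘ
        g.map (Int.castRingHom ℚ)) * pol P i := by
    rw [mul_sub, mul_sum]
    simp only [sub_mul, sum_sub_distrib, mul_assoc]
    ring
  rw [h5]
  refine dvd_sub ?_ ?_
  · exact Dvd.dvd.mul_left (dvd_sub_mod hgQ _) _
  · exact Finset.dvd_sum fun i _ => Dvd.dvd.mul_right (dvd_sub_mod hgQ _) _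

theorem ann_LQ (n : ℕ) (g : ℤ[X]) (hg : g.Monic) (hD : 0 < g.natDegree) (q k : ℕ)
    (hq : q ≤ g.natDegree) (P : Fin n × Fin g.natDegree → ℚ)
    (hP : ∀ s e, s < q → e < 2 ^ k → BB n g P (vQ n g (s, e)) = 0) : P ∈ LQ n g q k := by
  have hgQ : (g.map (Int.castRingHom ℚ)).Monic := hg.map _
  have hdeg : (g.map (Int.castRingHom ℚ)).degree = (g.natDegree : WithBot ℕ) := by
    rw [degree_eq_natDegree hgQ.ne_zero, hg.natDegree_map]
  rw [mem_LQ]
  intro e he
  have key : ∀ s ≤ q, ∀ j, g.natDegree ≤ j + s → (NP ℚ n g P e).coeff j = 0 := by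
    intro s
    induction s with
    | zero =>
      intro _ j hj
      apply coeff_eq_zero_of_degree_lt
      refine (NP_degree_lt ℚ n g hg P e).trans_le ?_
      exact_mod_cast hj
    | succ s ih =>
      intro hs j hj
      by_cases hj' : g.natDegree ≤ j + s
      · exact ih (by omega) j hj'
      have h1 := hP s e (by omega) he
      rw [BB_vQ n g hg hD] at h1
      have h2 : ((2 * X) ^ s * NP ℚ n g P e : ℚ[X]) = C (2 ^ s) * (X ^ s * NP ℚ n g P e) := by
        rw [mul_pow, C_pow, mul_assoc]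
        congr 2
      have h3 : ((2 * X) ^ s * NP ℚ n g P e : ℚ[X]).degree <
          (g.map (Int.castRingHom ℚ)).degree := by
        rw [hdeg, degree_lt_iff_coeff_zero]
        intro m hm
        rw [h2, coeff_C_mul, coeff_X_pow_mul']
        by_cases hsm : s ≤ m
        · rw [if_pos hsm, ih (by omega) (m - s) (by omega), mul_zero]
        · rw [if_neg hsm, mul_zero]
      rw [(modByMonic_eq_self_iff hgQ).2 h3, h2, coeff_C_mul, coeff_X_pow_mul',
        if_pos (by omega)] at h1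
      have h4 : g.natDegree - 1 - s = j := by omega
      rw [h4] at h1
      rcases mul_eq_zero.1 h1 with h5 | h5
      · exact absurd h5 (pow_ne_zero _ two_ne_zero)
      · exact h5
  exact key q le_rfl

theorem bas (hF : FulStmt) : BasStmt := by
  intro n g hc q k hqn hk
  have hnD : n ≤ g.natDegree := (Pool.Agent.EDG.H60.mob Pool.Agent.EDG.H24.moa n g hc).2
  have hD : 0 < g.natDegree := lt_of_lt_of_le hc.npos hnD
  have hg := hc.monic
  obtain ⟨I, hI⟩ : ∃ I : ℕ → Set (ℕ × ℕ), ∀ q p, p ∈ I q ↔ p.1 < q ∧ p.2 < 2 ^ k :=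
    ⟨fun q => {p | p.1 < q ∧ p.2 < 2 ^ k}, fun _ _ => Iff.rfl⟩
  have hdim : ∀ q ≤ n, finrank ℚ (Fin n × Fin g.natDegree → ℚ) ≤
      finrank ℚ (Submodule.span ℚ (vQ n g '' I q)) + finrank ℚ (LQ n g q k) := by
    intro q hq
    refine ann_dim (BB n g) (BB_nondeg n g hg hD) _ _ fun P hP => ?_
    refine ann_LQ n g hg hD q k (hq.trans hnD) P fun s e hs he => ?_
    exact hP _ (Submodule.subset_span ⟨(s, e), (hI q (s, e)).2 ⟨hs, he⟩, rfl⟩)
  have htop : Submodule.span ℚ (vQ n g '' I n) = ⊤ := by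
    have h1 := hdim n le_rfl
    rw [hF n g hc k hk, finrank_bot, add_zero] at h1
    exact Submodule.eq_top_of_finrank_eq (le_antisymm (Submodule.finrank_le _) h1)
  have hsub : I q ⊆ I n := by
    intro p hp
    rw [hI] at hp ⊢
    exact ⟨hp.1.trans_le hqn, hp.2⟩
  have hcard : Fintype.card (Fin n × Fin g.natDegree) =
      finrank ℚ (Fin n × Fin g.natDegree → ℚ) := (Module.finrank_fintype_fun_eq_card ℚ).symm
  obtain ⟨σ, hσ, hσI, hσl, hσc⟩ := select hcard (vQ n g) hsub htop
  refine ⟨σ, hσ, fun x => (hI n _).1 (hσI x), ?_, ?_⟩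
  · intro h0
    have h1 : IsUnit (Matrix.of fun x y : Fin n × Fin g.natDegree =>
        ((vec n g (σ y).1 (σ y).2 x : ℤ) : ℚ)) := by
      rw [← Matrix.linearIndependent_cols_iff_isUnit]
      exact hσl
    have h2 : ((Matrix.of fun x y : Fin n × Fin g.natDegree =>
        vec n g (σ y).1 (σ y).2 x).map (Int.castRingHom ℚ)) =
        (Matrix.of fun x y : Fin n × Fin g.natDegree =>
        ((vec n g (σ y).1 (σ y).2 x : ℤ) : ℚ)) := by
      ext x y
      rfl
    rw [← h2, Matrix.isUnit_iff_isUnit_det] at h1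
    have h3 := RingHom.map_det (Int.castRingHom ℚ) (Matrix.of fun x y : Fin n × Fin g.natDegree =>
        vec n g (σ y).1 (σ y).2 x)
    rw [h0, map_zero] at h3
    have h4 : (Int.castRingHom ℚ).mapMatrix (Matrix.of fun x y : Fin n × Fin g.natDegree =>
        vec n g (σ y).1 (σ y).2 x) = (Matrix.of fun x y : Fin n × Fin g.natDegree =>
        vec n g (σ y).1 (σ y).2 x).map (Int.castRingHom ℚ) := rfl
    rw [h4] at h3
    rw [← h3] at h1
    exact not_isUnit_zero h1
  · have h1 := hσc (univ.filter fun x => q ≤ (σ x).1) (fun x hx => by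
      have h2 := (Finset.mem_filter.1 hx).2
      rw [hI]
      omega)
    have h3 := hdim q hqn
    rw [hcard] at h1
    omega

end Pool.Agent.EDX.H67
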