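import Pool.Agent.EDX.Stmts4

/-!
# Squad EDX, row PAR (helper67): choice of the parameters
-/

set_option autoImplicit false

namespace Pool.Agent.EDX.H67

open Polynomial Finset Pool.Agent.EDG Pool.Agent.EDX

theorem two_pow_near (x : ℕ) (hx : 1 ≤ x) : ∃ c : ℕ, x ≤ 2 ^ c ∧ 2 ^ c < 2 * x := by
  have hex : ∃ c : ℕ, x ≤ 2 ^ c := ⟨x, Nat.lt_two_pow_self.le⟩
  classical
  refine ⟨Nat.find hex, Nat.find_spec hex, ?_⟩
  rcases hc : Nat.find hex with _ | c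
  · rw [pow_zero]
    omega
  · have h1 : ¬ x ≤ 2 ^ c := Nat.find_min hex (by omega)
    rw [pow_succ]
    omega

theorem par : ParStmt := by
  intro δ q₀ hδ hδ1 hq₀
  obtain ⟨d, hd⟩ : ∃ d : ℕ, d = ⌈1 / δ⌉₊ := ⟨_, rfl⟩
  have hdδ : 1 / δ ≤ (d : ℝ) := by
    rw [hd]
    exact Nat.le_ceil _
  have hdpos' : (0 : ℝ) < d := lt_of_lt_of_le (by positivity) hdδ
  have hdpos : 0 < d := by exact_mod_cast hdpos'
  have h1d : 1 / (d : ℝ) ≤ δ := by
    rw [div_le_iff₀ hdpos']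
    rw [div_le_iff₀ hδ] at hdδ
    linarith
  obtain ⟨b, hb⟩ : ∃ b : ℕ, b = d + 2 := ⟨_, rfl⟩
  obtain ⟨κ, hκ⟩ : ∃ κ : ℕ, κ = (2 * d) ^ (b + 1) := ⟨_, rfl⟩
  have hκpos : 0 < κ := by
    rw [hκ]
    positivity
  obtain ⟨J, hJ⟩ : ∃ J : ℕ, J = 32 * d * d * κ * d := ⟨_, rfl⟩
  obtain ⟨R, hR⟩ : ∃ R : ℕ, R = 32 * d * κ * d := ⟨_, rfl⟩
  have hRpos : 0 < R := by
    rw [hR]
    positivity
  obtain ⟨n₀, hn₀⟩ : ∃ n₀ : ℕ, n₀ = ⌈((1 + J + R : ℕ) : ℝ) / δ⌉₊ := ⟨_, rfl⟩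
  refine ⟨b, d, J, n₀, ((2 ^ (q₀ + 2) * (b + 2) * (2 ^ J * R) : ℕ) : ℝ),
    ((2 * (16 * d * κ * d) : ℕ) : ℝ), by omega, hdpos, ?_, ?_, h1d, ?_⟩
  · have h1 : 1 ≤ 2 ^ (q₀ + 2) * (b + 2) * (2 ^ J * R) := by
      have : 0 < 2 ^ (q₀ + 2) * (b + 2) * (2 ^ J * R) := by positivity
      omega
    exact_mod_cast h1
  · have h1 : 0 < 2 * (16 * d * κ * d) := by positivity
    exact_mod_cast h1
  intro n D hn hn1 hD hD2
  rw [← hκ]
  obtain ⟨q, hq⟩ : ∃ q : ℕ, q = ⌈δ * n⌉₊ := ⟨_, rfl⟩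
  have hn' : (1 : ℝ) ≤ n := by exact_mod_cast hn1
  have hδn : 0 < δ * n := by positivity
  have hqge : δ * n ≤ (q : ℝ) := by
    rw [hq]
    exact Nat.le_ceil _
  have hqlt : (q : ℝ) < δ * n + 1 := by
    rw [hq]
    exact Nat.ceil_lt_add_one hδn.le
  have hqpos : 0 < q := by
    have : (0 : ℝ) < q := hδn.trans_le hqge
    exact_mod_cast this
  have hqn : q ≤ n := by
    rw [hq]
    apply Nat.ceil_le.2
    have := mul_le_mul_of_nonneg_right hδ1 (zero_le_one.trans hn')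
    linarith
  have hndq : n ≤ d * q := by
    have h1 : (n : ℝ) ≤ (d : ℝ) * q := by
      have h2 : (1 : ℝ) ≤ d * δ := by
        rw [div_le_iff₀ hδ] at hdδ
        exact hdδ
      calc (n : ℝ) = 1 * n := (one_mul _).symm
        _ ≤ (d * δ) * n := mul_le_mul_of_nonneg_right h2 (zero_le_one.trans hn')
        _ = d * (δ * n) := by ring
        _ ≤ d * q := mul_le_mul_of_nonneg_left hqge hdpos'.le
    exact_mod_cast h1
  have hqbig : 1 + J + R ≤ q := by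
    have h1 : ((1 + J + R : ℕ) : ℝ) / δ ≤ n := by
      refine (Nat.le_ceil _).trans ?_
      rw [← hn₀]
      exact_mod_cast hn
    rw [div_le_iff₀ hδ] at h1
    have h2 : ((1 + J + R : ℕ) : ℝ) ≤ q := by linarith
    exact_mod_cast h2
  obtain ⟨k', hk1, hk2⟩ := two_pow_near (2 ^ J * (R * D)) (by
    have : 0 < 2 ^ J * (R * D) := by positivity
    omega)
  obtain ⟨c, hc1, hc2⟩ := two_pow_near ((b + 2) * 2 ^ k') (by
    have : 0 < (b + 2) * 2 ^ k' := by positivity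
    omega)
  obtain ⟨m', hm1, hm2⟩ := two_pow_near (16 * d * κ * d * D) (by
    have : 0 < 16 * d * κ * d * D := by positivity
    omega)
  have hcpos : 0 < c := by
    rcases Nat.eq_zero_or_pos c with h | h
    · rw [h, pow_zero] at hc1
      have h2 : 1 ≤ 2 ^ k' := Nat.one_le_two_pow
      have h3 : 2 * 1 ≤ (b + 2) * 2 ^ k' := Nat.mul_le_mul (by omega) h2
      omega
    · exact h
  obtain ⟨m, hm⟩ : ∃ m : ℕ, m = (c + q₀ - 1) / q₀ := ⟨_, rfl⟩
  have hmc : c ≤ q₀ * m := by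
    have h1 := Nat.lt_mul_div_succ (c + q₀ - 1) hq₀
    rw [← hm] at h1
    rw [Nat.mul_add, Nat.mul_one] at h1
    omega
  have hmc2 : q₀ * m ≤ c + q₀ := by
    have h1 := Nat.mul_div_le (c + q₀ - 1) q₀
    rw [← hm] at h1
    omega
  have hDk : D ≤ 2 ^ k' := by
    refine le_trans ?_ hk1
    have h1 : 1 ≤ 2 ^ J := Nat.one_le_two_pow
    have h2 : 1 * (1 * D) ≤ 2 ^ J * (R * D) :=
      Nat.mul_le_mul h1 (Nat.mul_le_mul_right D hRpos)
    rw [one_mul, one_mul] at h2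
    exact h2
  have hx : (b + 2) * 2 ^ k' ≤ 2 ^ (q₀ * m) :=
    hc1.trans (Nat.pow_le_pow_right (by norm_num) hmc)
  refine ⟨q, k', m, R * D, m', hqpos, hqn, hqlt.le, ?_, ?_, hx, ?_, ?_, ?_, hk1, ?_, ?_, ?_⟩
  · rcases Nat.eq_zero_or_pos m with h | h
    · rw [h, mul_zero] at hmc
      omega
    · exact h
  · -- `k' ≤ q b`
    have h1 : 2 ^ k' < 2 ^ (1 + J + R + n) := by
      calc 2 ^ k' < 2 * (2 ^ J * (R * D)) := hk2
        _ ≤ 2 * (2 ^ J * (2 ^ R * 2 ^ n)) := by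
          apply Nat.mul_le_mul_left
          apply Nat.mul_le_mul_left
          exact Nat.mul_le_mul Nat.lt_two_pow_self.le hD2
        _ = 2 ^ (1 + J + R + n) := by
          rw [pow_add, pow_add, pow_add, pow_one]
          ring
    have h2 : k' < 1 + J + R + n := (Nat.pow_lt_pow_iff_right (by norm_num)).1 h1
    have h3 : q * b = d * q + 2 * q := by
      rw [hb]
      ring
    rw [h3]
    omega
  · refine hDk.trans (le_trans ?_ hx)
    exact Nat.le_mul_of_pos_left _ (by omega)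
  · -- `2 ^ (q₀ m) ≤ K₂ D`
    have h1 : 2 ^ (q₀ * m) ≤ 2 ^ (q₀ + 2) * (b + 2) * (2 ^ J * R) * D := by
      calc 2 ^ (q₀ * m) ≤ 2 ^ (c + q₀) := Nat.pow_le_pow_right (by norm_num) hmc2
        _ = 2 ^ q₀ * 2 ^ c := by rw [pow_add, mul_comm]
        _ ≤ 2 ^ q₀ * (2 * ((b + 2) * 2 ^ k')) := Nat.mul_le_mul_left _ hc2.le
        _ ≤ 2 ^ q₀ * (2 * ((b + 2) * (2 * (2 ^ J * (R * D))))) := by
          apply Nat.mul_le_mul_left
          apply Nat.mul_le_mul_left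
          exact Nat.mul_le_mul_left _ hk2.le
        _ = 2 ^ (q₀ + 2) * (b + 2) * (2 ^ J * R) * D := by
          rw [pow_add]
          ring
    exact_mod_cast h1
  · -- `32 d κ n D ≤ q r₀`
    calc 32 * d * κ * (n * D) ≤ 32 * d * κ * ((d * q) * D) := by
          apply Nat.mul_le_mul_left
          exact Nat.mul_le_mul_right _ hndq
      _ = q * (R * D) := by
        rw [hR]
        ring
  · calc 32 * d * d * κ * n ≤ 32 * d * d * κ * (d * q) := Nat.mul_le_mul_left _ hndq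
      _ = J * q := by
        rw [hJ]
        ring
      _ < (J + 1) * q := by
        rw [Nat.add_mul, one_mul]
        omega
  · calc 16 * d * κ * (n * D) ≤ 16 * d * κ * ((d * q) * D) := by
          apply Nat.mul_le_mul_left
          exact Nat.mul_le_mul_right _ hndq
      _ = q * (16 * d * κ * d * D) := by ring
      _ ≤ q * 2 ^ m' := Nat.mul_le_mul_left _ hm1
  · have h1 : 2 ^ m' ≤ 2 * (16 * d * κ * d) * D := by
      have h2 : 2 * (16 * d * κ * d * D) = 2 * (16 * d * κ * d) * D := by ring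
      omega
    exact_mod_cast h1

end Pool.Agent.EDX.H67
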